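import Pool.Agent.W_MP_9b093e_co.Proof

/-!
The ratio of the upper broadcast domination number to the upper domination number is unbounded
over finite connected graphs.
-/

set_option autoImplicit false

namespace Pool.Agent.Results.MP_9b093e_co.RatioInfinite

open Pool.Agent.W_MP_9b093e_co

/-- The supremum of `Γ_b(G)/Γ(G)` over all finite connected graphs with at least two vertices
is infinite. -/
theorem result :
    sSup {x : EReal | ∃ (V : Type) (_ : Fintype V) (G : SimpleGraph V),
      2 ≤ Fintype.card V ∧ G.Connected ∧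
      x = (((upperBroadcastNumber G : ℝ) / (upperDominationNumber G : ℝ) : ℝ) : EReal)} = ⊤ := by
  classical
  rw [EReal.eq_top_iff_forall_lt]
  intro y
  obtain ⟨N, hN⟩ := exists_nat_gt y
  -- take r = k = 2 (N + 1)
  set k : ℕ := 2 * (N + 1) with hk
  have hk0 : 0 < k := by omega
  have hlow := lower_bound k k hk0 hk0
  have hup := upper_bound k k hk0
  have : Nonempty (Vtx k k) := ⟨vx ⟨0, hk0⟩ 0 (Nat.zero_le k)⟩
  have hpos := upperDominationNumber_pos (gr k k)
  have hcard : 2 ≤ Fintype.card (Vtx k k) := by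
    have hne : (vx ⟨0, hk0⟩ 0 (Nat.zero_le k) : Vtx k k) ≠ vx ⟨0, hk0⟩ k le_rfl := by
      intro h
      have := congrArg lev h
      simp at this
    have : Nontrivial (Vtx k k) := ⟨_, _, hne⟩
    exact Fintype.one_lt_card
  refine lt_of_lt_of_le ?_ (le_sSup ⟨Vtx k k, inferInstance, gr k k, hcard,
    gr_connected k k hk0, rfl⟩)
  rw [EReal.coe_lt_coe_iff]
  have hposR : (0 : ℝ) < (upperDominationNumber (gr k k) : ℝ) := by exact_mod_cast hpos
  refine lt_of_lt_of_le hN ?_
  rw [le_div_iff₀ hposR]
  have h1 : (upperDominationNumber (gr k k) : ℝ) ≤ 2 * k := by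
    have : upperDominationNumber (gr k k) ≤ 2 * k := by omega
    exact_mod_cast this
  have h2 : ((k : ℝ) * k) ≤ (upperBroadcastNumber (gr k k) : ℝ) := by exact_mod_cast hlow
  have hkR : (k : ℝ) = 2 * (N + 1) := by rw [hk]; push_cast; ring
  calc (N : ℝ) * (upperDominationNumber (gr k k) : ℝ) ≤ (N : ℝ) * (2 * k) := by
        apply mul_le_mul_of_nonneg_left h1 (Nat.cast_nonneg N)
    _ ≤ (k : ℝ) * k := by
        rw [hkR]
        nlinarith [Nat.cast_nonneg (α := ℝ) N]
    _ ≤ _ := h2

end Pool.Agent.Results.MP_9b093e_co.RatioInfinite
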